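import Pool.Agent.H48.RN.Stmts1

/-!
# Project RN, module BDC: values of characters are bounded by one
-/

set_option autoImplicit false
set_option linter.unusedSectionVars false

namespace Pool.RN

open Polynomial

theorem s_BDC (F : Type) [Field F] [Fintype F] (hDIS : S_DIS F) : S_BDC F := by
  classical
  intro M hM χ f
  have hfin : Finite (AdjoinRoot M) := (hDIS M hM).1
  unfold dir
  by_cases hu : IsUnit (AdjoinRoot.mk M f)
  · obtain ⟨u, hu⟩ := hu
    rw [← hu]
    have hfu : Finite (AdjoinRoot M)ˣ := inferInstance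
    have h1 : (χ (u : AdjoinRoot M)) ^ (Nat.card (AdjoinRoot M)ˣ) = 1 := by
      rw [← map_pow, ← Units.val_pow_eq_pow_val, pow_card_eq_one', Units.val_one, map_one]
    have h2 : Nat.card (AdjoinRoot M)ˣ ≠ 0 := Nat.card_pos.ne'
    have h3 : ‖χ (u : AdjoinRoot M)‖ ^ (Nat.card (AdjoinRoot M)ˣ) = 1 := by
      rw [← norm_pow, h1, norm_one]
    exact ((pow_eq_one_iff_of_nonneg (norm_nonneg _) h2).1 h3).le
  · rw [χ.map_nonunit hu, norm_zero]
    exact zero_le_one

end Pool.RN
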