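import Pool.Agent.H48.RN.Stmts1

/-!
# Project RN, module CRD: numbers of polynomials
-/

set_option autoImplicit false
set_option linter.unusedSectionVars false

namespace Pool.RN

open Polynomial

theorem CRD_pol (F : Type) [Field F] [Fintype F] (n : ℕ) :
    (Pol F n).card = Fintype.card F ^ (n + 1) := by
  classical
  have h : (Pol F n).card = (Finset.univ : Finset (Fin (n + 1) → F)).card := by
    refine Finset.card_bij' (fun f _ => fun i : Fin (n + 1) => f.coeff i)
      (fun c _ => ∑ i : Fin (n + 1), C (c i) * X ^ (i : ℕ)) ?_ ?_ ?_ ?_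
    · intro f _
      exact Finset.mem_univ _
    · intro c _
      rw [mem_Pol]
      refine natDegree_sum_le_of_forall_le _ _ (fun i _ => ?_)
      exact (natDegree_C_mul_X_pow_le _ _).trans (by omega)
    · intro f hf
      rw [mem_Pol] at hf
      have := f.as_sum_range_C_mul_X_pow' (Nat.lt_succ_of_le hf)
      conv_rhs => rw [this, Finset.sum_range]
    · intro c _
      funext j
      rw [finsetSum_coeff]
      rw [Finset.sum_eq_single j]
      · rw [coeff_C_mul, coeff_X_pow, if_pos rfl, mul_one]
      · intro i _ hij
        rw [coeff_C_mul, coeff_X_pow, if_neg (fun h => hij (Fin.ext h).symm), mul_zero]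
      · intro h
        exact absurd (Finset.mem_univ j) h
  rw [h, Finset.card_univ, Fintype.card_fun, Fintype.card_fin]

theorem CRD_mon (F : Type) [Field F] [Fintype F] (n : ℕ) :
    (Mon F n).card = Fintype.card F ^ n := by
  classical
  cases n with
  | zero =>
    have h : Mon F 0 = {1} := by
      ext f
      rw [mem_Mon, Finset.mem_singleton]
      constructor
      · rintro ⟨h1, h2⟩
        exact h1.natDegree_eq_zero.1 h2
      · rintro rfl
        exact ⟨monic_one, natDegree_one⟩
    rw [h, Finset.card_singleton, pow_zero]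
  | succ m =>
    rw [← CRD_pol F m]
    symm
    have hdeg : ∀ g : F[X], g.natDegree ≤ m → g.degree < ((m + 1 : ℕ) : WithBot ℕ) := by
      intro g hg
      exact (degree_le_natDegree).trans_lt (by exact_mod_cast Nat.lt_succ_of_le hg)
    refine Finset.card_bij' (fun g _ => X ^ (m + 1) + g) (fun f _ => f - X ^ (m + 1)) ?_ ?_ ?_ ?_
    · intro g hg
      rw [mem_Pol] at hg
      rw [mem_Mon]
      refine ⟨monic_X_pow_add (hdeg g hg), ?_⟩
      rw [natDegree_add_eq_left_of_natDegree_lt]
      · exact natDegree_X_pow _
      · rw [natDegree_X_pow]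
        omega
    · intro f hf
      rw [mem_Mon] at hf
      rw [mem_Pol]
      have h1 : f.degree = (X ^ (m + 1) : F[X]).degree := by
        rw [degree_X_pow, degree_eq_natDegree hf.1.ne_zero, hf.2]
      have h2 := degree_sub_lt_left h1 hf.1.ne_zero (by rw [hf.1.leadingCoeff, leadingCoeff_X_pow])
      rw [degree_eq_natDegree hf.1.ne_zero, hf.2] at h2
      by_cases h0 : f - X ^ (m + 1) = 0
      · rw [h0, natDegree_zero]
        exact Nat.zero_le _
      · rw [degree_eq_natDegree h0] at h2
        have h3 : (f - X ^ (m + 1)).natDegree < m + 1 := by exact_mod_cast h2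
        omega
    · intro g _
      ring
    · intro f _
      ring

theorem s_CRD (F : Type) [Field F] [Fintype F] : S_CRD F := ⟨CRD_mon F, CRD_pol F⟩

end Pool.RN
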