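import Pool.Agent.H48.RN.Stmts1

/-!
# Project RN, module DIS: distribution of the monic polynomials in the residue classes
-/

set_option autoImplicit false
set_option linter.unusedSectionVars false

namespace Pool.RN

open Polynomial

theorem DIS_finite (F : Type) [Field F] [Fintype F] (M : F[X]) (hM : M ≠ 0) :
    Finite (AdjoinRoot M) := by
  have h : Module.Finite F (AdjoinRoot M) := (AdjoinRoot.powerBasis hM).finite
  exact Module.finite_of_finite F

theorem s_DIS (F : Type) [Field F] [Fintype F] (hCRD : S_CRD F) : S_DIS F := by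
  classical
  intro M hM
  refine ⟨DIS_finite F M hM, ?_⟩
  intro n hn a
  obtain ⟨r0, rfl⟩ := AdjoinRoot.mk_surjective a
  have hlc : M.leadingCoeff ≠ 0 := leadingCoeff_ne_zero.2 hM
  set M1 : F[X] := M * C (M.leadingCoeff)⁻¹ with hM1
  have hM1m : M1.Monic := monic_mul_leadingCoeff_inv hM
  have hM1d : M1.natDegree = M.natDegree := by
    rw [hM1, natDegree_mul_C (inv_ne_zero hlc)]
  have hdvd : ∀ h : F[X], M ∣ h ↔ M1 ∣ h := by
    intro h
    have hu : IsUnit (C (M.leadingCoeff)⁻¹) := isUnit_C.2 (isUnit_iff_ne_zero.2 (inv_ne_zero hlc))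
    rw [hM1]
    exact (hu.mul_right_dvd).symm
  set r : F[X] := r0 %ₘ M1 with hr
  have hrd : r.degree < M1.degree := degree_modByMonic_lt r0 hM1m
  have hr0 : M1 ∣ r0 - r := by
    have := modByMonic_add_div r0 M1
    refine ⟨r0 /ₘ M1, ?_⟩
    rw [hr]
    linear_combination -this
  have hmk : ∀ f : F[X], AdjoinRoot.mk M f = AdjoinRoot.mk M r0 ↔ M1 ∣ f - r := by
    intro f
    rw [AdjoinRoot.mk_eq_mk, hdvd]
    constructor
    · intro h
      have := dvd_add h hr0
      have e : f - r0 + (r0 - r) = f - r := by ring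
      rwa [e] at this
    · intro h
      have := dvd_sub h hr0
      have e : f - r - (r0 - r) = f - r0 := by ring
      rwa [e] at this
  rw [← hCRD.1 (n - M.natDegree)]
  symm
  have hrn : r.degree < (n : WithBot ℕ) := by
    refine hrd.trans_le ?_
    rw [degree_eq_natDegree hM1m.ne_zero, hM1d]
    exact_mod_cast hn
  refine Finset.card_bij (fun g _ => M1 * g + r) ?_ ?_ ?_
  · intro g hg
    rw [mem_Mon] at hg
    rw [Finset.mem_filter, mem_Mon, hmk]
    have h1 : (M1 * g).Monic := hM1m.mul hg.1
    have h2 : (M1 * g).natDegree = n := by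
      rw [hM1m.natDegree_mul hg.1, hM1d, hg.2]
      omega
    have h3 : r.degree < (M1 * g).degree := by
      rw [degree_eq_natDegree h1.ne_zero, h2]
      exact hrn
    refine ⟨⟨h1.add_of_left h3, ?_⟩, ?_⟩
    · rw [natDegree_add_eq_left_of_degree_lt h3, h2]
    · exact ⟨g, by ring⟩
  · intro g _ g' _ h
    have h1 : M1 * g = M1 * g' := by
      have := congrArg (fun z => z - r) h
      simpa using this
    exact mul_left_cancel₀ hM1m.ne_zero h1
  · intro f hf
    rw [Finset.mem_filter, mem_Mon, hmk] at hf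
    obtain ⟨⟨h1, h2⟩, g, hg⟩ := hf
    have h3 : r.degree < f.degree := by
      rw [degree_eq_natDegree h1.ne_zero, h2]
      exact hrn
    have h4 : (f - r).Monic := h1.sub_of_left h3
    have h5 : g.Monic := by
      rw [hg] at h4
      exact hM1m.of_mul_monic_left h4
    have h6 : (f - r).natDegree = n := by
      rw [natDegree_eq_of_degree_eq (degree_sub_eq_left_of_degree_lt h3), h2]
    refine ⟨g, ?_, ?_⟩
    · rw [mem_Mon]
      refine ⟨h5, ?_⟩
      have h7 := hM1m.natDegree_mul h5
      rw [← hg, h6, hM1d] at h7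
      omega
    · rw [← hg]
      ring

end Pool.RN
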