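import Pool.Agent.H67.Esq.TF.TFMain

set_option autoImplicit false

/-!
# Torsion in the lower central factors of finitely generated groups (MP_778c2f)
-/

namespace Pool.H45.RN

open Subgroup
open scoped commutatorElement

/-- the lower central series, `Ga G 0 = G` -/
abbrev Ga (G : Type) [Group G] (i : ℕ) : Subgroup G := (⊤ : Subgroup G).lowerCentralSeries i

section

variable {G : Type} [Group G]

lemma comm_mem {i : ℕ} {a : G} (ha : a ∈ Ga G i) (g : G) : ⁅a, g⁆ ∈ Ga G (i + 1) :=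
  commutator_mem_commutator ha (mem_top g)

lemma Ga_anti {i j : ℕ} (h : i ≤ j) : Ga G j ≤ Ga G i :=
  (⊤ : Subgroup G).lowerCentralSeries_antitone h

/-- elements of `Ga G i` are central modulo `Ga G (i + 1)` -/
lemma mk_central {i : ℕ} {a : G} (ha : a ∈ Ga G i) :
    (a : G ⧸ Ga G (i + 1)) ∈ center (G ⧸ Ga G (i + 1)) := by
  rw [mem_center_iff]
  intro q
  induction q using QuotientGroup.induction_on with
  | _ g =>
    have h1 : ((⁅a, g⁆ : G) : G ⧸ Ga G (i + 1)) = 1 :=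
      (QuotientGroup.eq_one_iff _).2 (comm_mem ha g)
    have h2 : ⁅(a : G ⧸ Ga G (i + 1)), (g : G ⧸ Ga G (i + 1))⁆ = 1 := h1
    rw [commutatorElement_eq_one_iff_mul_comm] at h2
    exact h2.symm

/-- elements of `Ga G i` whose `e`-th power is in `Ga G (i + 1)` -/
def Ex (i e : ℕ) : Subgroup G where
  carrier := {g | g ∈ Ga G i ∧ g ^ e ∈ Ga G (i + 1)}
  one_mem' := ⟨one_mem _, by rw [one_pow]; exact one_mem _⟩
  mul_mem' := by
    rintro a b ⟨ha, ha'⟩ ⟨hb, hb'⟩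
    refine ⟨mul_mem ha hb, ?_⟩
    rw [← QuotientGroup.eq_one_iff] at ha' hb' ⊢
    have hc : Commute (a : G ⧸ Ga G (i + 1)) (b : G ⧸ Ga G (i + 1)) :=
      (mem_center_iff.1 (mk_central ha) _).symm
    have : (((a * b) ^ e : G) : G ⧸ Ga G (i + 1)) =
        ((a ^ e : G) : G ⧸ Ga G (i + 1)) * ((b ^ e : G) : G ⧸ Ga G (i + 1)) :=
      hc.mul_pow e
    rw [this, ha', hb', one_mul]
  inv_mem' := by
    rintro a ⟨ha, ha'⟩
    exact ⟨inv_mem ha, by rw [inv_pow]; exact inv_mem ha'⟩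

lemma comm_pow {a g : G} (h : Commute ⁅a, g⁆ a) (n : ℕ) : ⁅a ^ n, g⁆ = ⁅a, g⁆ ^ n := by
  induction n with
  | zero => simp
  | succ n ih =>
    have e : ⁅a ^ (n + 1), g⁆ = a ^ n * ⁅a, g⁆ * (a ^ n)⁻¹ * ⁅a ^ n, g⁆ := by
      simp only [commutatorElement_def, pow_succ]; group
    rw [e, ih, ((h.pow_right n).eq).symm, pow_succ']
    group

lemma pow_step {i e : ℕ} (h : ∀ g ∈ Ga G i, g ^ e ∈ Ga G (i + 1)) :
    ∀ g ∈ Ga G (i + 1), g ^ e ∈ Ga G (i + 2) := by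
  have key : Ga G (i + 1) ≤ Ex (i + 1) e := by
    show ⁅Ga G i, (⊤ : Subgroup G)⁆ ≤ _
    rw [commutator_le]
    intro a ha g _
    have hag := comm_mem ha g
    refine ⟨hag, ?_⟩
    have h1 : ⁅a ^ e, g⁆ ∈ Ga G (i + 2) := comm_mem (h a ha) g
    rw [← QuotientGroup.eq_one_iff] at h1 ⊢
    have hc : Commute ⁅(a : G ⧸ Ga G (i + 2)), (g : G ⧸ Ga G (i + 2))⁆ (a : G ⧸ Ga G (i + 2)) := by
      have := mem_center_iff.1 (mk_central (i := i + 1) hag) (a : G ⧸ Ga G (i + 2))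
      exact this.symm
    have h2 := comm_pow hc e
    have h3 : ((⁅a ^ e, g⁆ : G) : G ⧸ Ga G (i + 2)) =
        ⁅(a : G ⧸ Ga G (i + 2)) ^ e, (g : G ⧸ Ga G (i + 2))⁆ := rfl
    have h4 : ((⁅a, g⁆ ^ e : G) : G ⧸ Ga G (i + 2)) =
        ⁅(a : G ⧸ Ga G (i + 2)), (g : G ⧸ Ga G (i + 2))⁆ ^ e := rfl
    rw [h4, ← h2, ← h3, h1]
  intro g hg
  exact (key hg).2

lemma pow_steps {i e : ℕ} (h : ∀ g ∈ Ga G i, g ^ e ∈ Ga G (i + 1)) (j : ℕ) :
    ∀ g ∈ Ga G (i + j), g ^ e ∈ Ga G (i + j + 1) := by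
  induction j with
  | zero => exact h
  | succ j ih => exact pow_step ih

lemma pow_iter {i e : ℕ} (h : ∀ g ∈ Ga G i, g ^ e ∈ Ga G (i + 1)) (j : ℕ) :
    ∀ g ∈ Ga G i, g ^ (e ^ j) ∈ Ga G (i + j) := by
  induction j with
  | zero => intro g hg; simpa using hg
  | succ j ih =>
    intro g hg
    rw [pow_succ, pow_mul]
    exact pow_steps h j _ (ih g hg)

end

/-- torsion elements of a nilpotent group are closed under products -/
lemma tors_mul {H : Type} [Group H] [hH : Group.IsNilpotent H] {x y : H} {a b : ℕ} (ha : 1 ≤ a)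
    (hb : 1 ≤ b) (hx : x ^ a = 1) (hy : y ^ b = 1) : ∃ m, 1 ≤ m ∧ (x * y) ^ m = 1 := by
  set K : Subgroup H := closure {x, y} with hK
  have hxK : x ∈ K := subset_closure (by simp)
  have hyK : y ∈ K := subset_closure (by simp)
  obtain ⟨c, hc⟩ := Subgroup.nilpotent_iff_lowerCentralSeries.1
    (inferInstance : Group.IsNilpotent K)
  have h0 : ∀ g ∈ Ga K 0, g ^ (a * b) ∈ Ga K (0 + 1) := by
    have h1 : closure ((↑) ⁻¹' ({x, y} : Set H) : Set K) = ⊤ := closure_closure_coe_preimage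
    have h2 : closure ((↑) ⁻¹' ({x, y} : Set H) : Set K) ≤ Ex (G := K) 0 (a * b) := by
      rw [closure_le]
      rintro ⟨z, hz⟩ hz'
      refine ⟨mem_top _, ?_⟩
      have : (⟨z, hz⟩ : K) ^ (a * b) = 1 := by
        apply Subtype.ext
        have hz'' : z = x ∨ z = y := by simpa using hz'
        rcases hz'' with h | h
        · show z ^ (a * b) = 1
          rw [h, pow_mul, hx, one_pow]
        · show z ^ (a * b) = 1
          rw [h, mul_comm, pow_mul, hy, one_pow]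
      rw [this]
      exact one_mem _
    rw [h1] at h2
    intro g _
    exact (h2 (mem_top g)).2
  have h3 := pow_iter h0 c ⟨x * y, mul_mem hxK hyK⟩ (mem_top _)
  rw [zero_add] at h3
  have h4 : (⟨x * y, mul_mem hxK hyK⟩ : K) ^ (a * b) ^ c = 1 := by
    have : (⟨x * y, mul_mem hxK hyK⟩ : K) ^ (a * b) ^ c ∈ (⊥ : Subgroup K) := by
      rw [← hc]; exact h3
    exact mem_bot.1 this
  refine ⟨(a * b) ^ c, Nat.one_le_pow _ _ (Nat.mul_pos ha hb), ?_⟩
  exact congrArg Subtype.val h4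

lemma quot_lcs (G : Type) [Group G] (N : Subgroup G) [N.Normal] (n : ℕ) (h : Ga G n ≤ N) :
    Ga (G ⧸ N) n = ⊥ := by
  have h1 := map_lowerCentralSeries (⊤ : Subgroup G) (QuotientGroup.mk' N) n
  rw [Subgroup.map_top_of_surjective _ (QuotientGroup.mk'_surjective N)] at h1
  show (⊤ : Subgroup (G ⧸ N)).lowerCentralSeries n = ⊥
  rw [← h1, Subgroup.map_eq_bot_iff, QuotientGroup.ker_mk']
  exact h

lemma quot_nil (G : Type) [Group G] (N : Subgroup G) [N.Normal] (n : ℕ) (h : Ga G n ≤ N) :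
    Group.IsNilpotent (G ⧸ N) :=
  Subgroup.nilpotent_iff_lowerCentralSeries.2 ⟨n, quot_lcs G N n h⟩

/-- the isolator of `Ga G n` -/
def Iso (G : Type) [Group G] (n : ℕ) : Subgroup G where
  carrier := {g | ∃ m, 1 ≤ m ∧ g ^ m ∈ Ga G n}
  one_mem' := ⟨1, le_refl _, by rw [one_pow]; exact one_mem _⟩
  mul_mem' := by
    rintro x y ⟨a, ha, hx⟩ ⟨b, hb, hy⟩
    rw [← QuotientGroup.eq_one_iff] at hx hy
    have : Group.IsNilpotent (G ⧸ Ga G n) := quot_nil G (Ga G n) n le_rfl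
    obtain ⟨m, hm, h⟩ := tors_mul (x := (x : G ⧸ Ga G n)) (y := (y : G ⧸ Ga G n)) ha hb hx hy
    refine ⟨m, hm, ?_⟩
    rw [← QuotientGroup.eq_one_iff]
    exact h
  inv_mem' := by
    rintro x ⟨a, ha, hx⟩
    exact ⟨a, ha, by rw [inv_pow]; exact inv_mem hx⟩

instance (G : Type) [Group G] (n : ℕ) : (Iso G n).Normal := by
  refine ⟨?_⟩
  rintro x ⟨m, hm, hx⟩ g
  refine ⟨m, hm, ?_⟩
  rw [conj_pow]
  exact (inferInstance : (Ga G n).Normal).conj_mem _ hx g

lemma Ga_le_Iso (G : Type) [Group G] (n : ℕ) : Ga G n ≤ Iso G n := fun g hg =>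
  ⟨1, le_refl _, by rw [pow_one]; exact hg⟩

lemma Iso_tfree (G : Type) [Group G] (n : ℕ) : Pool.H67.Esq.TF.TFree (G ⧸ Iso G n) := by
  intro q k hk h
  induction q using QuotientGroup.induction_on with
  | _ g =>
    have h1 : ((g ^ k : G) : G ⧸ Iso G n) = 1 := h
    rw [QuotientGroup.eq_one_iff] at h1 ⊢
    obtain ⟨m, hm, h2⟩ := h1
    exact ⟨k * m, Nat.mul_pos hk hm, by rw [pow_mul]; exact h2⟩

/-- Lemma A: the torsion of a lower central factor has finite exponent -/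
lemma tors_exp {G : Type} [Group G] (S : Finset G) (hS : closure (S : Set G) = ⊤) (i : ℕ) :
    ∃ t, 1 ≤ t ∧ ∀ g ∈ Ga G i, (∃ m, 1 ≤ m ∧ g ^ m ∈ Ga G (i + 1)) → g ^ t ∈ Ga G (i + 1) := by
  classical
  set N := Ga G (i + 1) with hN
  -- torsion elements
  let C : Subgroup (G ⧸ N) :=
    { carrier := {q | q ∈ center (G ⧸ N) ∧ ∃ m, 1 ≤ m ∧ q ^ m = 1}
      one_mem' := ⟨one_mem _, 1, le_refl _, by simp⟩
      mul_mem' := by
        rintro a b ⟨ha, m, hm, ha'⟩ ⟨hb, k, hk, hb'⟩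
        refine ⟨mul_mem ha hb, m * k, Nat.mul_pos hm hk, ?_⟩
        have hc : Commute a b := (mem_center_iff.1 ha b).symm
        rw [hc.mul_pow, pow_mul, ha', one_pow, mul_comm m k, pow_mul, hb', one_pow, one_mul]
      inv_mem' := by
        rintro a ⟨ha, m, hm, ha'⟩
        exact ⟨inv_mem ha, m, hm, by rw [inv_pow, ha', inv_one]⟩ }
  have hfg : C.FG := by
    refine Pool.H67.Esq.TF.noeth (i + 1) (G ⧸ N) (quot_lcs G N (i + 1) le_rfl)
      (S.image (QuotientGroup.mk' N)) ?_ C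
    rw [Finset.coe_image, ← MonoidHom.map_closure, hS,
      Subgroup.map_top_of_surjective _ (QuotientGroup.mk'_surjective N)]
  obtain ⟨Y, hY⟩ := hfg
  have hYm : ∀ y ∈ Y, ∃ m, 1 ≤ m ∧ y ^ m = 1 := by
    intro y hy
    have : y ∈ closure (Y : Set (G ⧸ N)) := subset_closure hy
    rw [hY] at this
    exact this.2
  choose! f hf1 hf2 using hYm
  have hYc : ∀ y ∈ Y, y ∈ center (G ⧸ N) := by
    intro y hy
    have : y ∈ closure (Y : Set (G ⧸ N)) := subset_closure hy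
    rw [hY] at this
    exact this.1
  refine ⟨∏ y ∈ Y, f y, Nat.succ_le_of_lt (Finset.prod_pos fun y hy => hf1 y hy), ?_⟩
  let D : Subgroup (G ⧸ N) :=
    { carrier := {q | q ∈ center (G ⧸ N) ∧ q ^ (∏ y ∈ Y, f y) = 1}
      one_mem' := ⟨one_mem _, by simp⟩
      mul_mem' := by
        rintro a b ⟨ha, ha'⟩ ⟨hb, hb'⟩
        refine ⟨mul_mem ha hb, ?_⟩
        have hc : Commute a b := (mem_center_iff.1 ha b).symm
        rw [hc.mul_pow, ha', hb', one_mul]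
      inv_mem' := by
        rintro a ⟨ha, ha'⟩
        exact ⟨inv_mem ha, by rw [inv_pow, ha', inv_one]⟩ }
  have hCD : C ≤ D := by
    rw [← hY, closure_le]
    intro y hy
    refine ⟨hYc y hy, ?_⟩
    obtain ⟨k, hk⟩ := Finset.dvd_prod_of_mem f (show y ∈ Y from hy)
    rw [hk, pow_mul, hf2 y hy, one_pow]
  rintro g hg ⟨m, hm, hgm⟩
  have h1 : (g : G ⧸ N) ∈ C := ⟨mk_central hg, m, hm, (QuotientGroup.eq_one_iff _).2 hgm⟩
  have h2 := (hCD h1).2
  exact (QuotientGroup.eq_one_iff _).1 h2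

end Pool.H45.RN
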