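import Pool.Agent.H48.RN.Stmts1

/-!
# Project RN, module ANA: the mean square of `wf` over residue classes
-/

set_option autoImplicit false
set_option linter.unusedSectionVars false

namespace Pool.RN

open Polynomial

theorem s_ANA (F : Type) [Field F] [Fintype F] (hWSM : S_WSM F) (hPAR : S_PAR F) : S_ANA F := by
  classical
  intro ε hε
  obtain ⟨C, hC, hW⟩ := hWSM (ε / 2) (by linarith)
  refine ⟨C ^ 2, by positivity, ?_⟩
  intro M hM hdeg χ₀ l hreal hl N T hT
  have hq : (0 : ℝ) < (Fintype.card F : ℝ) := by exact_mod_cast Fintype.card_pos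
  have h1 := hPAR M hM.ne_zero (wf (cc χ₀ l)) N
    (C * (Fintype.card F : ℝ) ^ ((1 / 2 + ε / 2) * N + ε / 2 * M.natDegree))
    (fun ψ => hW M hM hdeg χ₀ ψ l hreal hl N) T hT
  refine h1.trans (le_of_eq ?_)
  rw [mul_pow, ← Real.rpow_mul_natCast hq.le]
  congr 2
  push_cast
  ring

end Pool.RN
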