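import Pool.Agent.H45.RN.A

set_option autoImplicit false

/-!
# Elements of order `p` of finitely generated nilpotent groups survive in finite `p`-quotients
-/

namespace Pool.H45.RN

open Subgroup
open scoped commutatorElement

lemma closure_image {Q : Type} [Group Q] (S : Finset Q) (hS : closure (S : Set Q) = ⊤)
    (N : Subgroup Q) [N.Normal] [DecidableEq (Q ⧸ N)] :
    closure ((S.image (QuotientGroup.mk' N) : Finset (Q ⧸ N)) : Set (Q ⧸ N)) = ⊤ := by
  rw [Finset.coe_image, ← MonoidHom.map_closure, hS,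
    Subgroup.map_top_of_surjective _ (QuotientGroup.mk'_surjective N)]

lemma lcs_le_center {Q : Type} [Group Q] {c : ℕ} (h : Ga Q (c + 1) = ⊥) : Ga Q c ≤ center Q := by
  intro n hn
  rw [mem_center_iff]
  intro g
  have h1 : ⁅n, g⁆ ∈ Ga Q (c + 1) := comm_mem hn g
  rw [h, mem_bot, commutatorElement_eq_one_iff_mul_comm] at h1
  exact h1.symm

/-- if the centre of a finitely generated nilpotent group is `p`-torsion, so is the group -/
lemma ptors (p : ℕ) (c : ℕ) (Q : Type) [Group Q] (S : Finset Q) (hS : closure (S : Set Q) = ⊤)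
    (hc : Ga Q c = ⊥) (hz : ∀ z ∈ center Q, ∃ k, z ^ p ^ k = 1) : ∀ q : Q, ∃ k, q ^ p ^ k = 1 := by
  classical
  induction c generalizing Q with
  | zero =>
    intro q
    have : q ∈ (⊥ : Subgroup Q) := by rw [← hc]; exact mem_top q
    exact ⟨0, by rw [mem_bot.1 this, one_pow]⟩
  | succ c ih =>
    have h1 := ih (Q ⧸ center Q) (S.image (QuotientGroup.mk' (center Q)))
      (closure_image S hS (center Q)) (quot_lcs Q (center Q) c (lcs_le_center hc)) ?_
    · intro q
      obtain ⟨k, hk⟩ := h1 (q : Q ⧸ center Q)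
      have h2 : q ^ p ^ k ∈ center Q := (QuotientGroup.eq_one_iff _).1 hk
      obtain ⟨l, hl⟩ := hz _ h2
      exact ⟨k + l, by rw [pow_add, pow_mul]; exact hl⟩
    · intro z hz'
      induction z using QuotientGroup.induction_on with
      | _ q =>
        have h2 : ∀ s : Q, ⁅q, s⁆ ∈ center Q := by
          intro s
          rw [← QuotientGroup.eq_one_iff]
          show ⁅(q : Q ⧸ center Q), (s : Q ⧸ center Q)⁆ = 1
          rw [commutatorElement_eq_one_iff_mul_comm]
          exact (mem_center_iff.1 hz' _).symm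
        have h3 : ∀ s : Q, ∃ k, ⁅q, s⁆ ^ p ^ k = 1 := fun s => hz _ (h2 s)
        choose f hf using h3
        obtain ⟨K, hK⟩ : ∃ K, K = ∑ s ∈ S, f s := ⟨_, rfl⟩
        refine ⟨K, ?_⟩
        have h4 : q ^ p ^ K ∈ center Q := by
          have h5 : ∀ s ∈ S, ⁅q ^ p ^ K, s⁆ = 1 := by
            intro s hs
            rw [comm_pow ((mem_center_iff.1 (h2 s) q).symm)]
            have h6 : f s ≤ K := by rw [hK]; exact Finset.single_le_sum (fun _ _ => Nat.zero_le _) hs
            obtain ⟨d, hd⟩ := Nat.exists_eq_add_of_le h6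
            rw [hd, pow_add, pow_mul, hf, one_pow]
          have h6 : closure (S : Set Q) ≤ centralizer {q ^ p ^ K} := by
            rw [closure_le]
            intro s hs
            have h7 := h5 s hs
            rw [commutatorElement_eq_one_iff_mul_comm] at h7
            exact mem_centralizer_singleton_iff.2 h7.symm
          rw [hS] at h6
          rw [mem_center_iff]
          intro g
          exact mem_centralizer_singleton_iff.1 (h6 (mem_top g))
        exact (QuotientGroup.eq_one_iff _).2 h4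

/-- finitely generated nilpotent torsion groups are finite -/
lemma fin_tors (c : ℕ) (Q : Type) [Group Q] (S : Finset Q) (hS : closure (S : Set Q) = ⊤)
    (hc : Ga Q c = ⊥) (ht : ∀ q : Q, ∃ m, 1 ≤ m ∧ q ^ m = 1) : Finite Q := by
  classical
  induction c generalizing Q with
  | zero =>
    have : ∀ q : Q, q = 1 := by
      intro q
      have : q ∈ (⊥ : Subgroup Q) := by rw [← hc]; exact mem_top q
      exact mem_bot.1 this
    have : Subsingleton Q := ⟨fun a b => by rw [this a, this b]⟩
    infer_instance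
  | succ c ih =>
    have h1 : Finite (Q ⧸ center Q) := ih (Q ⧸ center Q) (S.image (QuotientGroup.mk' (center Q)))
      (closure_image S hS (center Q)) (quot_lcs Q (center Q) c (lcs_le_center hc)) (by
        intro q
        induction q using QuotientGroup.induction_on with
        | _ q =>
          obtain ⟨m, hm, h⟩ := ht q
          have h' : q ^ m ∈ center Q := by rw [h]; exact one_mem _
          exact ⟨m, hm, (QuotientGroup.eq_one_iff _).2 h'⟩)
    have hfg : (center Q).FG := Pool.H67.Esq.TF.noeth (c + 1) Q hc S hS (center Q)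
    have h2 : Finite (center Q) := by
      let _ : CommGroup (center Q) := { (inferInstance : Group (center Q)) with
        mul_comm := fun a b => Subtype.ext ((Subgroup.mem_center_iff.1 b.2 a.1)) }
      have h3 : Group.FG (center Q) := (Group.fg_iff_subgroup_fg _).2 hfg
      refine CommGroup.finite_of_fg_isMulTorsion (center Q) ?_
      intro z
      rw [isOfFinOrder_iff_pow_eq_one]
      obtain ⟨m, hm, h⟩ := ht z.1
      exact ⟨m, hm, Subtype.ext h⟩
    exact Finite.of_equiv _ (Subgroup.groupEquivQuotientProdSubgroup (s := center Q)).symm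

lemma p_quot {H : Type} [Group H] (c : ℕ) (hc : Ga H c = ⊥) (S : Finset H)
    (hS : closure (S : Set H) = ⊤) {p : ℕ} [hp : Fact p.Prime] {x : H} (hx : x ^ p = 1)
    (hx1 : x ≠ 1) :
    ∃ M : Subgroup H, ∃ _ : M.Normal, x ∉ M ∧ Finite (H ⧸ M) ∧ IsPGroup p (H ⧸ M) := by
  classical
  obtain ⟨M, -, hM⟩ := zorn_le_nonempty₀ {M : Subgroup H | M.Normal ∧ x ∉ M} (by
    intro C hC hchain y hy
    have hdir : DirectedOn (· ≤ ·) C := hchain.directedOn
    refine ⟨sSup C, ⟨⟨?_⟩, ?_⟩, fun z hz => le_sSup hz⟩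
    · intro a ha g
      rw [mem_sSup_of_directedOn ⟨y, hy⟩ hdir] at ha ⊢
      obtain ⟨K, hK, haK⟩ := ha
      exact ⟨K, hK, (hC hK).1.conj_mem a haK g⟩
    · rw [mem_sSup_of_directedOn ⟨y, hy⟩ hdir]
      rintro ⟨K, hK, hxK⟩
      exact (hC hK).2 hxK) ⊥ ⟨inferInstance, fun h => hx1 (mem_bot.1 h)⟩
  have hMn : M.Normal := hM.prop.1
  have hxM : x ∉ M := hM.prop.2
  have hxp : (x : H ⧸ M) ^ p = 1 := by
    show ((x ^ p : H) : H ⧸ M) = 1
    rw [hx]; rfl
  have hx0 : (x : H ⧸ M) ≠ 1 := fun h => hxM ((QuotientGroup.eq_one_iff _).1 h)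
  have key : ∀ z ∈ center (H ⧸ M), z ≠ 1 → (x : H ⧸ M) ∈ zpowers z := by
    intro z hz hz1
    have hn : (zpowers z).Normal := by
      refine ⟨?_⟩
      rintro _ ⟨k, rfl⟩ g
      refine ⟨k, ?_⟩
      have h1 : z ^ k ∈ center (H ⧸ M) := zpow_mem hz k
      show z ^ k = g * z ^ k * g⁻¹
      rw [mem_center_iff.1 h1 g, mul_inv_cancel_right]
    by_contra hcon
    have h1 : (zpowers z).comap (QuotientGroup.mk' M) ∈ {M : Subgroup H | M.Normal ∧ x ∉ M} :=
      ⟨hn.comap _, fun h => hcon h⟩
    have h2 : M ≤ (zpowers z).comap (QuotientGroup.mk' M) := by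
      intro m hm
      show ((m : H) : H ⧸ M) ∈ zpowers z
      rw [(QuotientGroup.eq_one_iff m).2 hm]
      exact one_mem _
    have h3 := hM.le_of_ge h1 h2
    obtain ⟨g, rfl⟩ := QuotientGroup.mk'_surjective M z
    apply hz1
    exact (QuotientGroup.eq_one_iff g).2 (h3 (mem_zpowers _))
  have hz : ∀ z ∈ center (H ⧸ M), ∃ k, z ^ p ^ k = 1 := by
    intro z hz
    by_cases hz1 : z = 1
    · exact ⟨0, by rw [hz1, one_pow]⟩
    obtain ⟨j, hj⟩ := key z hz hz1
    have hj' : z ^ j = (x : H ⧸ M) := hj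
    have hfin : IsOfFinOrder z := by
      rw [isOfFinOrder_iff_zpow_eq_one]
      refine ⟨j * p, ?_, ?_⟩
      · intro h0
        have : j = 0 := by
          rcases mul_eq_zero.1 h0 with h | h
          · exact h
          · exact absurd (by exact_mod_cast h : p = 0) hp.out.ne_zero
        apply hx0
        rw [← hj', this, zpow_zero]
      · rw [zpow_mul, hj', zpow_natCast, hxp]
    have hpos : 0 < orderOf z := hfin.orderOf_pos
    obtain ⟨a, m', hm', hord⟩ := Nat.exists_eq_pow_mul_and_not_dvd hpos.ne' p hp.out.ne_one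
    refine ⟨a, ?_⟩
    by_contra hw
    obtain ⟨l, hl⟩ := key (z ^ p ^ a) (pow_mem hz _) hw
    have hl' : (z ^ p ^ a) ^ l = (x : H ⧸ M) := hl
    have h1 : (x : H ⧸ M) ^ m' = 1 := by
      rw [← hl', ← zpow_natCast ((z ^ p ^ a) ^ l), ← zpow_mul, mul_comm, zpow_mul, zpow_natCast,
        ← pow_mul, ← hord, pow_orderOf_eq_one, one_zpow]
    have h2 : orderOf (x : H ⧸ M) ∣ Nat.gcd p m' :=
      Nat.dvd_gcd (orderOf_dvd_of_pow_eq_one hxp) (orderOf_dvd_of_pow_eq_one h1)
    have h3 : Nat.gcd p m' = 1 := (Nat.Prime.coprime_iff_not_dvd hp.out).2 hm'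
    rw [h3, Nat.dvd_one, orderOf_eq_one_iff] at h2
    exact hx0 h2
  have hcl := closure_image S hS M
  have hcM : Ga (H ⧸ M) c = ⊥ := quot_lcs H M c (by rw [hc]; exact bot_le)
  have hP := ptors p c (H ⧸ M) _ hcl hcM hz
  refine ⟨M, hMn, hxM, ?_, ?_⟩
  · refine fin_tors c (H ⧸ M) _ hcl hcM ?_
    intro q
    obtain ⟨k, hk⟩ := hP q
    exact ⟨p ^ k, Nat.one_le_pow _ _ hp.out.pos, hk⟩
  · intro q
    exact hP q

end Pool.H45.RN
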