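import Pool.Agent.H45.RN.B

set_option autoImplicit false

/-!
# Finitely generated residually nilpotent groups whose torsion-free nilpotent quotients have
bounded class
-/

namespace Pool.H45.RN

open Subgroup Pool.H67.Esq.TF
open scoped commutatorElement

/-- every `g ≠ 1` survives under a homomorphism to a nilpotent group -/
def ResNil (G : Type) [Group G] : Prop :=
  ∀ g : G, g ≠ 1 → ∃ (H : Type) (_ : Group H) (φ : G →* H), Group.IsNilpotent H ∧ φ g ≠ 1

/-- every `g ≠ 1` survives under a homomorphism to a finite `p`-group -/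
def ResFinP (p : ℕ) (G : Type) [Group G] : Prop :=
  ∀ g : G, g ≠ 1 → ∃ (H : Type) (_ : Group H) (φ : G →* H), Finite H ∧ IsPGroup p H ∧ φ g ≠ 1

/-- the intersection of the kernels of the homomorphisms to finite `p`-groups -/
def Np (G : Type) [Group G] (p : ℕ) : Subgroup G where
  carrier := {g | ∀ (K : Type) (_ : Group K) (φ : G →* K), Finite K → IsPGroup p K → φ g = 1}
  one_mem' := fun K _ φ _ _ => map_one φ
  mul_mem' := by
    intro a b ha hb K _ φ h1 h2
    rw [map_mul, ha K _ φ h1 h2, hb K _ φ h1 h2, one_mul]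
  inv_mem' := by
    intro a ha K _ φ h1 h2
    rw [map_inv, ha K _ φ h1 h2, inv_one]

instance (G : Type) [Group G] (p : ℕ) : (Np G p).Normal := by
  refine ⟨?_⟩
  intro a ha g K _ φ h1 h2
  rw [map_mul, map_mul, ha K _ φ h1 h2, mul_one, map_inv, mul_inv_cancel]

lemma resFinP_quot (G : Type) [Group G] (p : ℕ) : ResFinP p (G ⧸ Np G p) := by
  intro q hq
  obtain ⟨g, rfl⟩ := QuotientGroup.mk'_surjective _ q
  have hg : g ∉ Np G p := fun h => hq ((QuotientGroup.eq_one_iff g).2 h)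
  have hg' : ¬ ∀ (K : Type) (_ : Group K) (φ : G →* K), Finite K → IsPGroup p K → φ g = 1 := hg
  push Not at hg'
  obtain ⟨K, iK, φ, h1, h2, h3⟩ := hg'
  refine ⟨K, iK, QuotientGroup.lift (Np G p) φ (fun x hx => hx K iK φ h1 h2), h1, h2, ?_⟩
  exact h3

lemma resNil_of_resFinP {p : ℕ} (hp : p.Prime) {G : Type} [Group G] (h : ResFinP p G) :
    ResNil G := by
  intro g hg
  obtain ⟨H, iH, φ, h1, h2, h3⟩ := h g hg
  have : Fact p.Prime := ⟨hp⟩
  exact ⟨H, iH, φ, IsPGroup.isNilpotent h2, h3⟩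

lemma one_of_coprime {Q : Type} [Group Q] {q : Q} {p t : ℕ} (hp : p.Prime) (ht : ¬ p ∣ t)
    (h1 : q ^ p = 1) (h2 : q ^ t = 1) : q = 1 := by
  have h3 : orderOf q ∣ Nat.gcd p t :=
    Nat.dvd_gcd (orderOf_dvd_of_pow_eq_one h1) (orderOf_dvd_of_pow_eq_one h2)
  rw [(Nat.Prime.coprime_iff_not_dvd hp).2 ht, Nat.dvd_one, orderOf_eq_one_iff] at h3
  exact h3

section

variable {G : Type} [Group G]

/-- the main structure theorem -/
theorem structure_thm (S : Finset G) (hS : closure (S : Set G) = ⊤) (hR : ResNil G) (c0 : ℕ)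
    (hb : ∀ (N : Subgroup G) (_ : N.Normal), Group.IsNilpotent (G ⧸ N) → TFree (G ⧸ N) →
      Group.nilpotencyClass (G ⧸ N) < c0) :
    ∃ P : Finset ℕ, (∀ p ∈ P, p.Prime) ∧ ∀ g ∈ Iso G c0, (∀ p ∈ P, g ∈ Np G p) → g = 1 := by
  classical
  have h1 : ∀ n, Ga G c0 ≤ Iso G n := by
    intro n
    have hn : Group.IsNilpotent (G ⧸ Iso G n) := quot_nil G (Iso G n) n (Ga_le_Iso G n)
    have h2 := hb (Iso G n) inferInstance hn (Iso_tfree G n)
    have h3 : (⊤ : Subgroup (G ⧸ Iso G n)).lowerCentralSeries c0 = ⊥ :=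
      (Subgroup.lowerCentralSeries_eq_bot_iff_nilpotencyClass_le).2 h2.le
    have h4 := map_lowerCentralSeries (⊤ : Subgroup G) (QuotientGroup.mk' (Iso G n)) c0
    rw [Subgroup.map_top_of_surjective _ (QuotientGroup.mk'_surjective _), h3,
      Subgroup.map_eq_bot_iff, QuotientGroup.ker_mk'] at h4
    exact h4
  have hA := fun i => tors_exp S hS i
  choose f hf1 hf2 using hA
  obtain ⟨t, ht⟩ : ∃ t, t = ∏ i ∈ Finset.range (c0 + 1), f i := ⟨_, rfl⟩
  have ht0 : t ≠ 0 := by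
    rw [ht, Finset.prod_ne_zero_iff]
    intro i _
    have := hf1 i
    omega
  have he : ∀ g ∈ Ga G c0, g ^ f c0 ∈ Ga G (c0 + 1) := by
    intro g hg
    exact hf2 c0 g hg (h1 (c0 + 1) hg)
  have h2 : ∀ p : ℕ, p.Prime → ¬ p ∣ t → ∀ i, ∀ g ∈ Ga G i, g ^ p ∈ Ga G (i + 1) →
      g ∈ Ga G (i + 1) := by
    intro p hp hpt i g hg hgp
    have h3 : ∃ e, ¬ p ∣ e ∧ g ^ e ∈ Ga G (i + 1) := by
      rcases Nat.lt_or_ge i (c0 + 1) with hi | hi
      · refine ⟨f i, fun h => hpt (h.trans ?_), hf2 i g hg ⟨p, hp.one_le, hgp⟩⟩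
        rw [ht]
        exact Finset.dvd_prod_of_mem f (Finset.mem_range.2 hi)
      · refine ⟨f c0, fun h => hpt (h.trans ?_), ?_⟩
        · rw [ht]
          exact Finset.dvd_prod_of_mem f (Finset.mem_range.2 (by omega))
        · obtain ⟨j, rfl⟩ : ∃ j, i = c0 + j := ⟨i - c0, by omega⟩
          exact pow_steps he j g hg
    obtain ⟨e, he1, he2⟩ := h3
    rw [← QuotientGroup.eq_one_iff] at hgp he2 ⊢
    exact one_of_coprime (q := (g : G ⧸ Ga G (i + 1))) hp he1 hgp he2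
  have h3 : ∀ p : ℕ, p.Prime → ¬ p ∣ t → ∀ n, ∀ y : G, y ^ p ∈ Ga G n → y ∈ Ga G n := by
    intro p hp hpt n
    induction n with
    | zero => intro y _; exact mem_top y
    | succ n ih =>
      intro y hy
      exact h2 p hp hpt n y (ih y (Ga_anti (Nat.le_succ n) hy)) hy
  refine ⟨t.primeFactors, fun p hp => Nat.prime_of_mem_primeFactors hp, ?_⟩
  rintro g ⟨m, hm, hgm⟩ hgN
  by_contra hg1
  obtain ⟨H, iH, φ, hH, hφ⟩ := hR g hg1
  obtain ⟨c, hc⟩ := Subgroup.nilpotent_iff_lowerCentralSeries.1 hH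
  have hker : Ga G c ≤ φ.ker := by
    have h4 := map_lowerCentralSeries (⊤ : Subgroup G) φ c
    have h5 : ((⊤ : Subgroup G).map φ).lowerCentralSeries c ≤ (⊤ : Subgroup H).lowerCentralSeries c :=
      Subgroup.lowerCentralSeries_mono c le_top
    rw [hc, ← h4, le_bot_iff, Subgroup.map_eq_bot_iff] at h5
    exact h5
  obtain ⟨n, hn⟩ : ∃ n, n = max c c0 := ⟨_, rfl⟩
  have hgn : g ∉ Ga G n := fun h => hφ (hker (Ga_anti (by omega) h))
  obtain ⟨m', hm', hgm'⟩ := h1 n hgm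
  have hgo : IsOfFinOrder (g : G ⧸ Ga G n) := by
    rw [isOfFinOrder_iff_pow_eq_one]
    refine ⟨m * m', Nat.mul_pos hm hm', ?_⟩
    have : ((g ^ (m * m') : G) : G ⧸ Ga G n) = 1 := by
      rw [QuotientGroup.eq_one_iff, pow_mul]
      exact hgm'
    exact this
  obtain ⟨r, hr⟩ : ∃ r, r = orderOf (g : G ⧸ Ga G n) := ⟨_, rfl⟩
  have hr0 : 0 < r := by rw [hr]; exact hgo.orderOf_pos
  have hr1 : r ≠ 1 := by
    rw [hr]
    intro h
    rw [orderOf_eq_one_iff] at h
    exact hgn ((QuotientGroup.eq_one_iff g).1 h)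
  obtain ⟨p, hp, hpr⟩ := Nat.exists_prime_and_dvd hr1
  obtain ⟨s, hs⟩ := hpr
  have hs0 : 0 < s := by
    rcases Nat.eq_zero_or_pos s with h | h
    · subst h; omega
    · exact h
  have hy1 : (g ^ s) ∉ Ga G n := by
    rw [← QuotientGroup.eq_one_iff]
    intro h
    have h4 : (g : G ⧸ Ga G n) ^ s = 1 := h
    have h5 := Nat.le_of_dvd hs0 (orderOf_dvd_of_pow_eq_one h4)
    rw [← hr, hs] at h5
    have h6 := hp.two_le
    nlinarith
  have hy2 : (g ^ s) ^ p ∈ Ga G n := by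
    rw [← QuotientGroup.eq_one_iff]
    show ((g : G ⧸ Ga G n) ^ s) ^ p = 1
    rw [← pow_mul, mul_comm, ← hs, hr, pow_orderOf_eq_one]
  have hpt : p ∣ t := by
    by_contra h
    exact hy1 (h3 p hp h n _ hy2)
  have hfact : Fact p.Prime := ⟨hp⟩
  have hx1 : ((g ^ s : G) : G ⧸ Ga G n) ≠ 1 := fun h => hy1 ((QuotientGroup.eq_one_iff _).1 h)
  have hx2 : ((g ^ s : G) : G ⧸ Ga G n) ^ p = 1 := (QuotientGroup.eq_one_iff _).2 hy2
  obtain ⟨M, hM, hxM, hfin, hpg⟩ := p_quot (H := G ⧸ Ga G n) n (quot_lcs G (Ga G n) n le_rfl)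
    (S.image (QuotientGroup.mk' (Ga G n))) (closure_image S hS (Ga G n)) hx2 hx1
  have hmem := hgN p (Nat.mem_primeFactors.2 ⟨hp, hpt, ht0⟩)
  have h4 := hmem _ _ ((QuotientGroup.mk' M).comp (QuotientGroup.mk' (Ga G n))) hfin hpg
  apply hxM
  rw [← QuotientGroup.eq_one_iff]
  have h5 : ((QuotientGroup.mk' M).comp (QuotientGroup.mk' (Ga G n))) (g ^ s) = 1 := by
    rw [map_pow, h4, one_pow]
  exact h5

/-- if all the quotients are virtually nilpotent, so is `G` -/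
theorem virt (c0 : ℕ) (h1 : Ga G c0 ≤ Iso G c0) (P : Finset ℕ)
    (hP : ∀ g ∈ Iso G c0, (∀ p ∈ P, g ∈ Np G p) → g = 1)
    (hv : ∀ p ∈ P, Group.IsVirtuallyNilpotent (G ⧸ Np G p)) : Group.IsVirtuallyNilpotent G := by
  classical
  choose! N hN1 hN2 using hv
  have h2 : ∀ p ∈ P, ∃ c, (N p).lowerCentralSeries c = ⊥ := fun p hp =>
    (Subgroup.isNilpotent_iff_lowerCentralSeries (N p)).1 (hN1 p hp)
  choose! f hf using h2
  have h3 : ∀ P' : Finset ℕ, P' ⊆ P → ∃ K : Subgroup G, K.FiniteIndex ∧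
      ∀ p ∈ P', K ≤ (N p).comap (QuotientGroup.mk' (Np G p)) := by
    intro P'
    induction P' using Finset.induction_on with
    | empty => intro _; exact ⟨⊤, inferInstance, by simp⟩
    | insert q P' hq ih =>
      intro hsub
      obtain ⟨K, hK1, hK2⟩ := ih (fun x hx => hsub (Finset.mem_insert_of_mem hx))
      have hfi : (N q).FiniteIndex := hN2 q (hsub (Finset.mem_insert_self _ _))
      have hfi2 : ((N q).comap (QuotientGroup.mk' (Np G q))).FiniteIndex := by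
        refine ⟨?_⟩
        rw [Subgroup.index_comap_of_surjective _ (QuotientGroup.mk'_surjective _)]
        exact hfi.index_ne_zero
      refine ⟨K ⊓ (N q).comap (QuotientGroup.mk' (Np G q)), inferInstance, ?_⟩
      intro p hp
      rcases Finset.mem_insert.1 hp with h | h
      · subst h; exact inf_le_right
      · exact inf_le_left.trans (hK2 p h)
  obtain ⟨K, hK1, hK2⟩ := h3 P (Finset.Subset.refl _)
  refine ⟨K, ?_, hK1⟩
  rw [Subgroup.isNilpotent_iff_lowerCentralSeries]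
  refine ⟨max c0 (∑ p ∈ P, f p), ?_⟩
  rw [eq_bot_iff]
  intro g hg
  rw [mem_bot]
  apply hP g
  · apply h1
    have h4 : K.lowerCentralSeries (max c0 (∑ p ∈ P, f p)) ≤ Ga G c0 :=
      (Subgroup.lowerCentralSeries_mono _ le_top).trans (Ga_anti (le_max_left _ _))
    exact h4 hg
  · intro p hp
    rw [← QuotientGroup.eq_one_iff, ← mem_bot (G := G ⧸ Np G p), ← hf p hp]
    have h5 : f p ≤ max c0 (∑ p ∈ P, f p) :=
      (Finset.single_le_sum (fun _ _ => Nat.zero_le _) hp).trans (le_max_right _ _)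
    have h6 := (N p).lowerCentralSeries_antitone h5
    apply h6
    have h7 := map_lowerCentralSeries K (QuotientGroup.mk' (Np G p)) (max c0 (∑ p ∈ P, f p))
    have h8 : K.map (QuotientGroup.mk' (Np G p)) ≤ N p := Subgroup.map_le_iff_le_comap.2 (hK2 p hp)
    have h9 : (g : G ⧸ Np G p) ∈ (K.lowerCentralSeries (max c0 (∑ p ∈ P, f p))).map
        (QuotientGroup.mk' (Np G p)) := ⟨g, hg, rfl⟩
    rw [h7] at h9
    exact Subgroup.lowerCentralSeries_mono _ h8 h9

end

end Pool.H45.RN
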