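import Pool.Agent.H45.RN.C

set_option autoImplicit false

/-!
# Reduction of Q1 to Q2 (MP_778c2f)
-/

namespace Pool.H45.RN

open Subgroup Pool.H67.Esq Pool.H67.Esq.TF

/-- growth at most `exp (√(C n))` -/
def AtMostExpSqrt {G : Type} [Group G] (S : Finset G) : Prop :=
  ∃ C : ℝ, 1 ≤ C ∧ ∀ n : ℕ, (growth S n : ℝ) ≤ Real.exp (Real.sqrt (C * n))

/-- if the torsion-free nilpotent quotients have bounded class -/
theorem bounded_case {G : Type} [Group G] (S : Finset G) (hS : closure (S : Set G) = ⊤)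
    (hR : ResNil G) (hb : ¬ UnboundedTorsionFreeClass G) :
    ∃ (c0 : ℕ) (P : Finset ℕ), Ga G c0 ≤ Iso G c0 ∧ (∀ p ∈ P, p.Prime) ∧
      ∀ g ∈ Iso G c0, (∀ p ∈ P, g ∈ Np G p) → g = 1 := by
  unfold UnboundedTorsionFreeClass at hb
  push Not at hb
  obtain ⟨c0, hc0⟩ := hb
  obtain ⟨P, hP1, hP2⟩ := structure_thm S hS hR c0 hc0
  exact ⟨c0, P, Ga_le_Iso G c0, hP1, hP2⟩

theorem dichotomy {G : Type} [Group G] (S : Finset G) (hS : closure (S : Set G) = ⊤)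
    (hR : ResNil G) :
    (∃ c : ℝ, 0 < c ∧ ∀ n : ℕ, 2 ≤ n →
      Real.exp (c * Real.sqrt ((n : ℝ) * Real.log n)) ≤ growth S n) ∨
    ∃ (T : Subgroup G) (_ : T.Normal) (P : Finset ℕ) (N : ℕ → Subgroup G)
      (_ : ∀ p, (N p).Normal), Group.IsNilpotent (G ⧸ T) ∧ TFree (G ⧸ T) ∧
      (∀ p ∈ P, p.Prime ∧ ResFinP p (G ⧸ N p)) ∧ T ⊓ (⨅ p ∈ P, N p) = ⊥ := by
  by_cases hb : UnboundedTorsionFreeClass G
  · exact Or.inl ((tf_main S hS).1 hb)
  · right
    obtain ⟨c0, P, h1, h2, h3⟩ := bounded_case S hS hR hb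
    refine ⟨Iso G c0, inferInstance, P, Np G, fun p => inferInstance,
      quot_nil G (Iso G c0) c0 (Ga_le_Iso G c0), Iso_tfree G c0,
      fun p hp => ⟨h2 p hp, resFinP_quot G p⟩, ?_⟩
    rw [eq_bot_iff]
    intro g hg
    rw [mem_inf, mem_iInf] at hg
    rw [mem_bot]
    refine h3 g hg.1 (fun p hp => ?_)
    have h4 := hg.2 p
    rw [mem_iInf] at h4
    exact h4 hp

theorem quotient_case {G : Type} [Group G] (S : Finset G) (hS : closure (S : Set G) = ⊤)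
    (hR : ResNil G) (hC : AtMostExpSqrt S) (hv : ¬ Group.IsVirtuallyNilpotent G) :
    ∃ (p : ℕ) (N : Subgroup G) (_ : N.Normal), p.Prime ∧ ResFinP p (G ⧸ N) ∧
      ¬ Group.IsVirtuallyNilpotent (G ⧸ N) := by
  have hb : ¬ UnboundedTorsionFreeClass G := by
    intro h
    obtain ⟨c, hc, h1⟩ := (tf_main S hS).1 h
    obtain ⟨C, -, hC⟩ := hC
    exact not_le_exp_sqrt (growth S) c hc h1 C hC
  obtain ⟨c0, P, h1, h2, h3⟩ := bounded_case S hS hR hb
  by_contra hcon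
  push Not at hcon
  exact hv (virt c0 h1 P h3 fun p hp => hcon p (Np G p) inferInstance (h2 p hp) (resFinP_quot G p))

theorem equivalence :
    (∃ (G : Type) (_ : Group G) (S : Finset G), closure (S : Set G) = ⊤ ∧ ResNil G ∧
      AtMostExpSqrt S ∧ ¬ Group.IsVirtuallyNilpotent G) ↔
    ∃ p : ℕ, p.Prime ∧ ∃ (G : Type) (_ : Group G) (S : Finset G), closure (S : Set G) = ⊤ ∧
      ResFinP p G ∧ AtMostExpSqrt S ∧ ¬ Group.IsVirtuallyNilpotent G := by
  classical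
  constructor
  · rintro ⟨G, _, S, hS, hR, hC, hv⟩
    obtain ⟨p, N, hN, hp, h1, h2⟩ := quotient_case S hS hR hC hv
    obtain ⟨C, hC1, hC2⟩ := hC
    refine ⟨p, hp, G ⧸ N, inferInstance, S.image (QuotientGroup.mk' N), closure_image S hS N, h1,
      ⟨C, hC1, fun n => ?_⟩, h2⟩
    have h3 : (growth (S.image (QuotientGroup.mk' N)) n : ℝ) ≤ growth S n := by
      exact_mod_cast growth_quot (QuotientGroup.mk' N) S n
    exact h3.trans (hC2 n)
  · rintro ⟨p, hp, G, _, S, hS, hR, hC, hv⟩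
    exact ⟨G, inferInstance, S, hS, resNil_of_resFinP hp hR, hC, hv⟩

end Pool.H45.RN
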