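import Pool.Agent.H48.RN.Stmts1

/-!
# Project RN, module MOB: Moebius sums twisted by a nontrivial character
-/

set_option autoImplicit false
set_option linter.unusedSectionVars false

namespace Pool.RN

open Polynomial

theorem MOB_zero (F : Type) [Field F] [Fintype F] (ψ : F[X] → ℂ) (h : ψ 1 = 1) : mm ψ 0 = 1 := by
  classical
  have h1 : Mon F 0 = {1} := by
    ext f
    rw [mem_Mon, Finset.mem_singleton]
    constructor
    · rintro ⟨h1, h2⟩
      exact h1.natDegree_eq_zero.1 h2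
    · rintro rfl
      exact ⟨monic_one, natDegree_one⟩
  have h2 : mu (1 : F[X]) = 1 := by
    unfold mu
    rw [if_pos squarefree_one]
    have h3 : pf (1 : F[X]) = ∅ := by
      unfold pf
      rw [UniqueFactorizationMonoid.normalizedFactors_one]
      rfl
    rw [h3, Finset.card_empty, pow_zero]
  unfold mm
  rw [h1, Finset.sum_singleton, h2, h, one_mul]

theorem s_MOB (F : Type) [Field F] [Fintype F] (hMAJ : S_MAJ) (hEXB : S_EXB) (hRHB : S_RHB F)
    (hTRV : S_TRV F) (hBDC : S_BDC F) (hLGM : S_LGM F) : S_MOB F := by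
  classical
  intro ε hε
  have hq2 : 2 ≤ Fintype.card F := Fintype.one_lt_card
  have hq : (0 : ℝ) < (Fintype.card F : ℝ) := by
    have : 0 < Fintype.card F := by omega
    exact_mod_cast this
  obtain ⟨C, hC⟩ := hEXB (Fintype.card F) ε hq2 hε
  refine ⟨Real.exp C, Real.exp_pos C, ?_⟩
  intro M hM hdeg χ hχ N
  have hcm : CMul (dir χ) := CMul.dir χ
  set u : ℝ := (Fintype.card F : ℝ) ^ (-(1 / 2 + ε)) with hu
  have hu0 : 0 < u := Real.rpow_pos_of_pos hq _
  have h1 := hMAJ (mm (dir χ)) (fun j => - aa (dir χ) j)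
    (fun j => min ((Fintype.card F : ℝ) ^ j) (M.natDegree * Real.sqrt (Fintype.card F) ^ j))
    (MOB_zero F _ hcm.one) (hLGM _ hcm) (fun j hj => by
      rw [norm_neg]
      exact le_min (hTRV _ (hBDC M hM.ne_zero χ) j hj) (hRHB M hM hdeg χ hχ j hj)) u N hu0
  have h2 := hC M.natDegree N
  have h3 : ‖mm (dir χ) N‖ * u ^ N ≤
      Real.exp (C + ε * M.natDegree * Real.log (Fintype.card F)) :=
    h1.trans (Real.exp_le_exp.2 h2)
  have h4 : Real.exp (C + ε * M.natDegree * Real.log (Fintype.card F)) =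
      Real.exp C * (Fintype.card F : ℝ) ^ (ε * M.natDegree) := by
    rw [Real.exp_add, Real.rpow_def_of_pos hq]
    congr 2
    ring
  have h5 : u ^ N = (Fintype.card F : ℝ) ^ (-((1 / 2 + ε) * N)) := by
    rw [hu, ← Real.rpow_mul_natCast hq.le]
    congr 1
    ring
  rw [h4, h5] at h3
  have h6 : (0 : ℝ) < (Fintype.card F : ℝ) ^ ((1 / 2 + ε) * N) := Real.rpow_pos_of_pos hq _
  have h7 : (Fintype.card F : ℝ) ^ (-((1 / 2 + ε) * N)) * (Fintype.card F : ℝ) ^ ((1 / 2 + ε) * N) =
      1 := by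
    rw [← Real.rpow_add hq, neg_add_cancel, Real.rpow_zero]
  calc ‖mm (dir χ) N‖ = ‖mm (dir χ) N‖ * (Fintype.card F : ℝ) ^ (-((1 / 2 + ε) * N)) *
        (Fintype.card F : ℝ) ^ ((1 / 2 + ε) * N) := by
        rw [mul_assoc, h7, mul_one]
    _ ≤ Real.exp C * (Fintype.card F : ℝ) ^ (ε * M.natDegree) *
        (Fintype.card F : ℝ) ^ ((1 / 2 + ε) * N) := mul_le_mul_of_nonneg_right h3 h6.le
    _ = Real.exp C * (Fintype.card F : ℝ) ^ ((1 / 2 + ε) * N + ε * M.natDegree) := by
        rw [mul_assoc, ← Real.rpow_add hq]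
        congr 2
        ring

end Pool.RN
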