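import Pool.Agent.H48.RN.Stmts2

/-!
# Project RN, module NOR: the extension is normal
-/

set_option autoImplicit false
set_option linter.unusedSectionVars false

namespace Pool.RN

open Polynomial

theorem NOR_abs (K₀ E : Type) [Field K₀] [Field E] [Algebra K₀ E] (S : Set E)
    (hfd : FiniteDimensional K₀ (IntermediateField.adjoin K₀ S))
    (h : ∀ (Ω : Type) [Field Ω] (j τ : IntermediateField.adjoin K₀ S →+* Ω),
      j.comp (algebraMap K₀ _) = τ.comp (algebraMap K₀ _) → ∀ s (hs : s ∈ S),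
      ∃ y : IntermediateField.adjoin K₀ S, j y = τ ⟨s, IntermediateField.subset_adjoin _ _ hs⟩) :
    Normal K₀ (IntermediateField.adjoin K₀ S) := by
  set L0 := IntermediateField.adjoin K₀ S with hL0
  have hac : IsAlgClosure K₀ (AlgebraicClosure L0) :=
    ⟨inferInstance, Algebra.IsAlgebraic.trans K₀ L0 (AlgebraicClosure L0)⟩
  have hn : Normal K₀ (AlgebraicClosure L0) := IsAlgClosure.normal _ _
  set i : L0 →ₐ[K₀] AlgebraicClosure L0 := IsScalarTower.toAlgHom K₀ L0 (AlgebraicClosure L0)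
    with hi
  set e : L0 ≃ₐ[K₀] i.fieldRange := AlgEquiv.ofInjectiveField i with he
  have hK : Normal K₀ i.fieldRange := by
    rw [IntermediateField.normal_iff_forall_fieldRange_le]
    intro σ
    set τ : L0 →ₐ[K₀] AlgebraicClosure L0 := σ.comp e.toAlgHom with hτ
    have key : ∀ (x : E) (hx : x ∈ IntermediateField.adjoin K₀ S), τ ⟨x, hx⟩ ∈ i.fieldRange := by
      intro x hx
      induction hx using IntermediateField.adjoin_induction with
      | mem x hx =>
        obtain ⟨y, hy⟩ := h (AlgebraicClosure L0) i.toRingHom τ.toRingHom (by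
          ext a
          show i (algebraMap K₀ L0 a) = τ (algebraMap K₀ L0 a)
          rw [AlgHom.commutes, AlgHom.commutes]) x hx
        exact ⟨y, hy⟩
      | algebraMap x =>
        have h1 : τ (algebraMap K₀ L0 x) = algebraMap K₀ (AlgebraicClosure L0) x :=
          τ.commutes x
        have h2 : (⟨algebraMap K₀ E x, IntermediateField.algebraMap_mem _ _⟩ : L0) =
          algebraMap K₀ L0 x := rfl
        rw [h2, h1]
        exact i.fieldRange.algebraMap_mem x
      | add x y hx hy h1 h2 =>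
        have h3 : (⟨x + y, add_mem hx hy⟩ : L0) = ⟨x, hx⟩ + ⟨y, hy⟩ := rfl
        rw [h3, map_add]
        exact add_mem h1 h2
      | inv x hx h1 =>
        have h3 : (⟨x⁻¹, inv_mem hx⟩ : L0) = (⟨x, hx⟩ : L0)⁻¹ := rfl
        rw [h3, map_inv₀]
        exact inv_mem h1
      | mul x y hx hy h1 h2 =>
        have h3 : (⟨x * y, mul_mem hx hy⟩ : L0) = ⟨x, hx⟩ * ⟨y, hy⟩ := rfl
        rw [h3, map_mul]
        exact mul_mem h1 h2
    rintro _ ⟨z, rfl⟩
    obtain ⟨y, rfl⟩ := e.surjective z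
    exact key y.1 y.2
  exact Normal.of_algEquiv e.symm

section

variable {F L L' : Type} [Field F] [Fintype F] [Field L] [Algebra F L] [Field L'] [Algebra F L']

theorem NOR_tw (φ : L →+* L') (Y : L[X]) : (tw F Y).map φ = tw F (Y.map φ) := by
  ext n
  simp [tw, coeff_map, FiniteField.coe_frobeniusAlgHom]

theorem NOR_M (φ : L →+* L') (hφ : φ.comp (algebraMap F L) = algebraMap F L') (M : F[X]) :
    M.map (algebraMap F L') = (M.map (algebraMap F L)).map φ := by
  rw [Polynomial.map_map, hφ]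

theorem NOR_eqn (φ : L →+* L') (x : L) (Y : L[X]) :
    tw F (Y.map φ) - (X - C (φ x)) * Y.map φ = (tw F Y - (X - C x) * Y).map φ := by
  rw [Polynomial.map_sub, NOR_tw, Polynomial.map_mul, Polynomial.map_sub, Polynomial.map_X,
    Polynomial.map_C]

theorem NOR_sol (φ : L →+* L') (hφ : φ.comp (algebraMap F L) = algebraMap F L') (M : F[X])
    (x : L) (Y : L[X]) : IsSol M (φ x) (Y.map φ) ↔ IsSol M x Y := by
  constructor
  · rintro ⟨h1, h2, h3⟩
    refine ⟨?_, ?_, ?_⟩
    · rwa [degree_map] at h1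
    · rw [NOR_M φ hφ, isCoprime_map] at h2
      exact h2
    · rw [NOR_M φ hφ, NOR_eqn, map_dvd_map'] at h3
      exact h3
  · rintro ⟨h1, h2, h3⟩
    refine ⟨?_, ?_, ?_⟩
    · rwa [degree_map]
    · rw [NOR_M φ hφ, isCoprime_map]
      exact h2
    · rw [NOR_M φ hφ, NOR_eqn, map_dvd_map']
      exact h3

theorem NOR_act (φ : L →+* L') (hφ : φ.comp (algebraMap F L) = algebraMap F L') (M : F[X])
    (hM : M.Monic) (g : F[X]) (Y : L[X]) : act M g (Y.map φ) = (act M g Y).map φ := by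
  unfold act
  rw [NOR_M φ hφ, NOR_M φ hφ, map_modByMonic φ (hM.map _), Polynomial.map_mul]

end

theorem NOR_core {F : Type} [Field F] [Fintype F] (hTOR : S_TOR F) (L0 E Ω : Type) [Field L0]
    [Algebra F L0] [Field E] [Algebra F E] [Field Ω] [Algebra F Ω] (ι : L0 →+* E) (j τ : L0 →+* Ω)
    (hι : ι.comp (algebraMap F L0) = algebraMap F E)
    (hj : j.comp (algebraMap F L0) = algebraMap F Ω)
    (hτ : τ.comp (algebraMap F L0) = algebraMap F Ω) (M : F[X]) (hM : M.Monic)
    (hm : 1 ≤ M.natDegree) (x0 : L0) (Y0 : L0[X]) (hx : τ x0 = j x0)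
    (hsol : IsSol M (ι x0) (Y0.map ι)) (i : ℕ) : ∃ y : L0, j y = τ (Y0.coeff i) := by
  have hs0 : IsSol M x0 Y0 := (NOR_sol ι hι M x0 Y0).1 hsol
  have hsj : IsSol M (j x0) (Y0.map j) := (NOR_sol j hj M x0 Y0).2 hs0
  have hsτ : IsSol M (τ x0) (Y0.map τ) := (NOR_sol τ hτ M x0 Y0).2 hs0
  rw [hx] at hsτ
  obtain ⟨g, -, hg, -⟩ := hTOR M hM hm Ω (j x0) (Y0.map j) (Y0.map τ) hsj hsτ.deg hsτ.eq
  rw [NOR_act j hj M hM] at hg
  refine ⟨(act M g Y0).coeff i, ?_⟩
  have h1 := congrArg (fun p => p.coeff i) hg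
  simp only [coeff_map] at h1
  exact h1.symm

theorem s_NOR {F k : Type} [Field F] [Fintype F] [Field k] [Algebra F k] [IsAlgClosed k]
    [Algebra.IsAlgebraic F k] (M : F[X]) (Y : (EE k)[X]) (hM : M.Monic) (hm : 1 ≤ M.natDegree)
    (hY : Good M Y) (hTOR : S_TOR F) (hFDL : S_FDL F Y) : S_NOR F Y := by
  refine NOR_abs (KK F k) (EE k) {z | ∃ i, z = Y.coeff i} hFDL ?_
  intro Ω _ j τ hjτ s hs
  obtain ⟨i, rfl⟩ := hs
  -- the algebra structures
  let f0 : F →+* LL F Y := (algebraMap (KK F k) (LL F Y)).comp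
    ((algebraMap k (KK F k)).comp (algebraMap F k))
  have hτ : RingHom.comp (γ := Ω) τ f0 = RingHom.comp (γ := Ω) j f0 := by
    ext a
    have := congrArg (fun f => f ((algebraMap k (KK F k)) (algebraMap F k a))) hjτ
    exact this.symm
  -- the solution over `LL`
  have hlift : Y ∈ Polynomial.lifts (algebraMap (LL F Y) (EE k)) := by
    rw [Polynomial.lifts_iff_coeff_lifts]
    intro n
    exact ⟨⟨Y.coeff n, IntermediateField.subset_adjoin _ _ ⟨n, rfl⟩⟩, rfl⟩
  obtain ⟨Y0, hY0⟩ := (Polynomial.mem_lifts _).1 hlift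
  let x0 : LL F Y := algebraMap (KK F k) (LL F Y)
    ⟨xx F k, IntermediateField.mem_adjoin_simple_self k (xx F k)⟩
  have hx : τ x0 = j x0 := by
    have := congrArg (fun f => f ⟨xx F k, IntermediateField.mem_adjoin_simple_self k (xx F k)⟩) hjτ
    exact this.symm
  have hsol : IsSol M ((algebraMap (LL F Y) (EE k)) x0) (Y0.map (algebraMap (LL F Y) (EE k))) := by
    rw [hY0]
    exact hY.sol
  obtain ⟨y, hy⟩ := @NOR_core F _ _ hTOR (LL F Y) (EE k) Ω _ f0.toAlgebra _ _ _
    (RingHom.comp (γ := Ω) j f0).toAlgebra (algebraMap (LL F Y) (EE k)) j τ rfl rfl hτ M hM hm x0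
    Y0 hx hsol i
  refine ⟨y, hy.trans ?_⟩
  congr 1
  apply Subtype.ext
  have h2 := congrArg (fun p => p.coeff i) hY0
  simp only [coeff_map] at h2
  exact h2

end Pool.RN
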