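import Pool.Agent.H48.RN.Stmts1

/-!
# Project RN, module SZR: sums of a nontrivial character vanish
-/

set_option autoImplicit false
set_option linter.unusedSectionVars false

namespace Pool.RN

open Polynomial

theorem s_SZR (F : Type) [Field F] [Fintype F] (hDIS : S_DIS F) : S_SZR F := by
  classical
  intro M hM χ hχ n hn
  obtain ⟨hfin, hcard⟩ := hDIS M hM
  have hft : Fintype (AdjoinRoot M) := Fintype.ofFinite _
  unfold bb
  rw [← Finset.sum_fiberwise (Mon F n) (fun f => AdjoinRoot.mk M f) (dir χ)]
  have h1 : ∀ a : AdjoinRoot M, ∑ f ∈ (Mon F n).filter (fun f => AdjoinRoot.mk M f = a), dir χ f =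
      (Fintype.card F : ℂ) ^ (n - M.natDegree) * χ a := by
    intro a
    have h2 : ∀ f ∈ (Mon F n).filter (fun f => AdjoinRoot.mk M f = a), dir χ f = χ a := by
      intro f hf
      rw [Finset.mem_filter] at hf
      unfold dir
      rw [hf.2]
    rw [Finset.sum_congr rfl h2, Finset.sum_const, hcard n hn a, nsmul_eq_mul]
    push_cast
    rfl
  rw [Finset.sum_congr rfl (fun a _ => h1 a), ← Finset.mul_sum,
    MulChar.sum_eq_zero_of_ne_one hχ, mul_zero]

end Pool.RN
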